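import Pool.Agent.helper82.Disc.Defs

set_option autoImplicit false

/-! DISC project, module E1. -/

namespace Pool.Agent.helper82.Disc
open Finset

variable {b : ℕ} [Fact b.Prime]

theorem E1_mem_low (a x : ZMod b) : x - a ∈ low a ↔ x.val < a.val := by
  simp [low]

theorem box_good (n : ℕ) (u s : Fin n → ZMod b) : (box n u s).Good := by
  refine ⟨?_, ?_, ?_, ?_⟩
  · intro j; simp [box, low]
  · intro j; simp [box, low]
  · simp [box]
  · simp [box]

theorem E1_left (n : ℕ) (u v : Fin n → ZMod b) :
    left n u (fun j => low (u j)) 0 v = lt01 n v u := by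
  induction n with
  | zero => simp [left, lt01]
  | succ n ih =>
    have h1 : (Fin.tail (fun j => low (u j)) : Fin n → Finset (ZMod b))
        = fun j => low (Fin.tail u j) := rfl
    simp only [left, lt01, sel, h1, ih, E1_mem_low]
    by_cases h : v 0 = u 0
    · simp [h]
    · simp [h]

theorem E1_right (n : ℕ) (s v : Fin n → ZMod b) :
    right n s (fun j => low (s j)) 0 v = lt01 n (fun j => v j.rev) (fun j => s j.rev) := by
  induction n with
  | zero => simp [right, lt01]
  | succ n ih =>
    have h1 : (Fin.init (fun j => low (s j)) : Fin n → Finset (ZMod b))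
        = fun j => low (Fin.init s j) := rfl
    have h2 : ∀ w : Fin (n + 1) → ZMod b,
        (Fin.tail (fun j => w j.rev) : Fin n → ZMod b) = fun j => Fin.init w j.rev := by
      intro w; funext j; simp [Fin.tail, Fin.init, Fin.rev_succ]
    simp only [right, lt01, sel, h1, ih, E1_mem_low, h2, Fin.rev_zero]
    by_cases h : v (Fin.last n) = s (Fin.last n)
    · simp [h]
    · simp [h]

theorem box_beta (n : ℕ) (u s v : Fin n → ZMod b) :
    (box n u s).beta v = lt01 n v u * lt01 n (fun j => v j.rev) (fun j => s j.rev) := by
  rw [Str.beta, ← E1_left, ← E1_right]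
  rfl

end Pool.Agent.helper82.Disc
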