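import Pool.Agent.helper52.Disc.E1

set_option autoImplicit false

/-! DISC project, module E2: number of points in a two-dimensional corner box. -/

namespace Pool.Agent.helper82.Disc
open Finset

section
variable {F : Type} [Field F] [Fintype F] [DecidableEq F]

theorem E2_right_cons (k : ℕ) (s : Fin (k + 1) → F) (R : Fin (k + 1) → Finset F) (c : ℝ)
    (v : Fin (k + 1) → F) :
    right (k + 1) s R c v =
      right k (Fin.tail s) (Fin.tail R) (sel (s 0) (R 0) c (v 0)) (Fin.tail v) := by
  induction k with
  | zero => rfl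
  | succ k ih =>
    rw [right, ih, right]
    rfl

/-- sums over strings, first digit first -/
theorem E2_sum_cons {n : ℕ} (f : (Fin (n + 1) → F) → ℝ) :
    ∑ v : Fin (n + 1) → F, f v = ∑ a : F, ∑ v : Fin n → F, f (Fin.cons a v) := by
  rw [← (Fin.consEquiv (fun _ : Fin (n + 1) => F)).sum_comp, Fintype.sum_prod_type]
  rfl

end

variable {b : ℕ} [Fact b.Prime]

/-- the value of the string read from the right -/
noncomputable def E2_T : (n : ℕ) → (Fin n → ZMod b) → ℝ
  | 0, _ => 0
  | n + 1, s => b * E2_T n (Fin.tail s) + ((s 0).val : ℝ)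

theorem E2_b_pos : (0 : ℝ) < b := by
  exact_mod_cast (Fact.out : b.Prime).pos

/-- sum of a function of the digits below a digit -/
theorem E2_count_lt (a : ZMod b) : (∑ x : ZMod b, if x.val < a.val then (1 : ℝ) else 0) = a.val := by
  have hb : NeZero b := ⟨(Fact.out : b.Prime).ne_zero⟩
  rw [Finset.sum_boole]
  congr 1
  have h1 : (Finset.univ.filter (fun x : ZMod b => x.val < a.val)).image ZMod.val
      = Finset.range a.val := by
    ext x
    simp only [mem_image, mem_filter, mem_univ, true_and, mem_range]
    constructor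
    · rintro ⟨y, hy, rfl⟩; exact hy
    · intro hx
      refine ⟨(x : ZMod b), ?_, ?_⟩
      · rw [ZMod.val_cast_of_lt (lt_trans hx (ZMod.val_lt a))]; exact hx
      · rw [ZMod.val_cast_of_lt (lt_trans hx (ZMod.val_lt a))]
  rw [← Finset.card_image_of_injective _ (ZMod.val_injective b), h1, Finset.card_range]

theorem E2_sel (s : ZMod b) (c : ℝ) (x : ZMod b) :
    sel s (low s) c x = (if x.val < s.val then (1 : ℝ) else 0) + if x = s then c else 0 := by
  simp only [sel, E1_mem_low]
  by_cases h : x = s
  · simp [h]
  · simp [h]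

theorem E2_sel_sum (s : ZMod b) (c : ℝ) : ∑ x, sel s (low s) c x = s.val + c := by
  simp only [E2_sel, Finset.sum_add_distrib, E2_count_lt]
  simp

theorem E2_right_sum (n : ℕ) (s : Fin n → ZMod b) (c : ℝ) :
    ∑ v, right n s (fun j => low (s j)) c v = E2_T n s + c := by
  induction n generalizing c with
  | zero => simp [right, E2_T]
  | succ n ih =>
    rw [E2_sum_cons]
    have h1 : ∀ (a : ZMod b) (v : Fin n → ZMod b),
        right (n + 1) s (fun j => low (s j)) c (Fin.cons a v : Fin (n + 1) → ZMod b)
          = right n (Fin.tail s) (fun j => low (Fin.tail s j)) (sel (s 0) (low (s 0)) c a) v := by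
      intro a v
      rw [E2_right_cons]
      rfl
    simp only [h1, ih, Finset.sum_add_distrib, E2_sel_sum, E2_T]
    simp [ZMod.card]
    ring

theorem E2_om_mem (k : ℕ) (w : Fin k → ZMod b) : 0 ≤ om k w ∧ om k w ≤ 1 := by
  induction k with
  | zero => simp [om]
  | succ k ih =>
    have hb := E2_b_pos (b := b)
    obtain ⟨h0, h1⟩ := ih (Fin.tail w)
    have h2 : ((w 0).val : ℝ) + 1 ≤ b := by
      have : NeZero b := ⟨(Fact.out : b.Prime).ne_zero⟩
      exact_mod_cast ZMod.val_lt (w 0)
    rw [om]
    constructor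
    · positivity
    · rw [div_le_one hb]; linarith

theorem E2_om_eq_sum (k : ℕ) (w : Fin k → ZMod b) :
    om k w = ∑ j : Fin k, ((w j).val : ℝ) / (b : ℝ) ^ (j.val + 1) := by
  induction k with
  | zero => simp [om]
  | succ k ih =>
    rw [om, ih, Fin.sum_univ_succ, add_div, Finset.sum_div]
    congr 1
    · simp
    · refine Finset.sum_congr rfl fun j _ => ?_
      simp only [Fin.tail, Fin.val_succ]
      rw [div_div, ← pow_succ]

theorem E2_T_eq_sum (k : ℕ) (w : Fin k → ZMod b) :
    E2_T k w = ∑ j : Fin k, ((w j).val : ℝ) * (b : ℝ) ^ (j.val) := by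
  induction k with
  | zero => simp [E2_T]
  | succ k ih =>
    rw [E2_T, ih, Fin.sum_univ_succ, Finset.mul_sum, add_comm]
    congr 1
    · simp
    · refine Finset.sum_congr rfl fun j _ => ?_
      simp only [Fin.tail, Fin.val_succ, pow_succ]
      ring

theorem E2_T_eq (n : ℕ) (s : Fin n → ZMod b) :
    E2_T n s = (b : ℝ) ^ n * om n (fun j => s j.rev) := by
  rw [E2_T_eq_sum, E2_om_eq_sum, Finset.mul_sum, ← Equiv.sum_comp Fin.revPerm]
  refine Finset.sum_congr rfl fun j _ => ?_
  have hb := E2_b_pos (b := b)
  simp only [Fin.revPerm_apply, Fin.val_rev]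
  have h : n = (n - (j.val + 1)) + (j.val + 1) := by have := j.2; omega
  have h2 : (b : ℝ) ^ n = (b : ℝ) ^ (n - (j.val + 1)) * (b : ℝ) ^ (j.val + 1) := by
    rw [← pow_add, ← h]
  rw [h2]
  field_simp

/-- counting with a general value at the last point -/
theorem E2_count (n : ℕ) (u s : Fin n → ZMod b) (c : ℝ) (hc : 0 ≤ c ∧ c ≤ 1) :
    |∑ v, lt01 n v u * right n s (fun j => low (s j)) c v - om n u * E2_T n s| ≤ n * b := by
  induction n generalizing c with
  | zero => simp [lt01, om]
  | succ n ih =>
    have hb := E2_b_pos (b := b)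
    have hb1 : NeZero b := ⟨(Fact.out : b.Prime).ne_zero⟩
    rw [E2_sum_cons]
    have h1 : ∀ (a : ZMod b) (v : Fin n → ZMod b),
        right (n + 1) s (fun j => low (s j)) c (Fin.cons a v : Fin (n + 1) → ZMod b)
          = right n (Fin.tail s) (fun j => low (Fin.tail s j)) (sel (s 0) (low (s 0)) c a) v := by
      intro a v
      rw [E2_right_cons]
      rfl
    have h2 : ∀ (a : ZMod b) (v : Fin n → ZMod b),
        lt01 (n + 1) (Fin.cons a v : Fin (n + 1) → ZMod b) u
          = (if a.val < (u 0).val then 1 else 0) + if a = u 0 then lt01 n v (Fin.tail u) else 0 := by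
      intro a v
      have h3 : (Fin.tail (Fin.cons a v : Fin (n + 1) → ZMod b) : Fin n → ZMod b) = v := rfl
      rw [lt01, h3, Fin.cons_zero]
      by_cases h : a = u 0
      · simp [h]
      · simp [h]
    have h4 : ∑ a : ZMod b, ∑ v : Fin n → ZMod b,
        lt01 (n + 1) (Fin.cons a v : Fin (n + 1) → ZMod b) u
          * right (n + 1) s (fun j => low (s j)) c (Fin.cons a v : Fin (n + 1) → ZMod b)
        = ((u 0).val * E2_T n (Fin.tail s)
            + ∑ a : ZMod b, (if a.val < (u 0).val then sel (s 0) (low (s 0)) c a else 0))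
          + ∑ v, lt01 n v (Fin.tail u)
            * right n (Fin.tail s) (fun j => low (Fin.tail s j)) (sel (s 0) (low (s 0)) c (u 0)) v := by
      simp only [h1, h2, add_mul, Finset.sum_add_distrib]
      congr 1
      · have h5 : ∀ a : ZMod b, ∑ v : Fin n → ZMod b, (if a.val < (u 0).val then (1 : ℝ) else 0)
            * right n (Fin.tail s) (fun j => low (Fin.tail s j)) (sel (s 0) (low (s 0)) c a) v
            = (if a.val < (u 0).val then (1 : ℝ) else 0) * E2_T n (Fin.tail s)
              + (if a.val < (u 0).val then sel (s 0) (low (s 0)) c a else 0) := by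
          intro a
          rw [← Finset.mul_sum, E2_right_sum]
          split_ifs <;> ring
        simp only [h5, Finset.sum_add_distrib, ← Finset.sum_mul, E2_count_lt]
      · rw [Finset.sum_eq_single (u 0)]
        · simp
        · intro a _ ha
          simp [ha]
        · simp
    rw [h4]
    have hsel : ∀ a : ZMod b, 0 ≤ sel (s 0) (low (s 0)) c a ∧ sel (s 0) (low (s 0)) c a ≤ 1 := by
      intro a
      rw [sel]
      split_ifs
      · exact hc
      · simp
      · simp
    have h6 := ih (Fin.tail u) (Fin.tail s) (sel (s 0) (low (s 0)) c (u 0)) (hsel (u 0))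
    have h7 : 0 ≤ ∑ a : ZMod b, (if a.val < (u 0).val then sel (s 0) (low (s 0)) c a else 0) := by
      refine Finset.sum_nonneg fun a _ => ?_
      split_ifs
      · exact (hsel a).1
      · simp
    have h8 : ∑ a : ZMod b, (if a.val < (u 0).val then sel (s 0) (low (s 0)) c a else 0)
        ≤ (u 0).val := by
      rw [← E2_count_lt]
      refine Finset.sum_le_sum fun a _ => ?_
      split_ifs
      · exact (hsel a).2
      · simp
    have h9 : ((u 0).val : ℝ) ≤ b := by
      exact_mod_cast (ZMod.val_lt (u 0)).le
    have h10 : ((s 0).val : ℝ) ≤ b := by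
      exact_mod_cast (ZMod.val_lt (s 0)).le
    have h11 : om (n + 1) u * E2_T (n + 1) s
        = (u 0).val * E2_T n (Fin.tail s) + om n (Fin.tail u) * E2_T n (Fin.tail s)
          + om (n + 1) u * (s 0).val := by
      rw [om, E2_T]
      field_simp
    have h12 := E2_om_mem (n + 1) u
    have h13 : 0 ≤ om (n + 1) u * (s 0).val := mul_nonneg h12.1 (by positivity)
    have h14 : om (n + 1) u * (s 0).val ≤ b := by
      calc om (n + 1) u * (s 0).val ≤ 1 * b := by
            apply mul_le_mul h12.2 h10 (by positivity) (by norm_num)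
        _ = b := one_mul _
    rw [abs_le] at h6 ⊢
    rw [h11]
    push_cast
    constructor
    · linarith [h6.1]
    · linarith [h6.2]

/-- number of points in a two-dimensional corner box -/
theorem box_count (n : ℕ) (u s : Fin n → ZMod b) :
    |∑ v, (box n u s).beta v - (b : ℝ) ^ n * om n u * om n (fun j => s j.rev)| ≤ 2 * n * b + 1 := by
  have h1 := E2_count n u s 0 (by norm_num)
  have h2 : ∑ v, (box n u s).beta v
      = ∑ v, lt01 n v u * right n s (fun j => low (s j)) 0 v := by
    refine Finset.sum_congr rfl fun v _ => ?_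
    rw [box_beta, E1_right]
  have h3 : (b : ℝ) ^ n * om n u * om n (fun j => s j.rev) = om n u * E2_T n s := by
    rw [E2_T_eq]; ring
  have hb := E2_b_pos (b := b)
  rw [h2, h3]
  refine h1.trans ?_
  have : (0 : ℝ) ≤ n * b := by positivity
  linarith

end Pool.Agent.helper82.Disc
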