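import Pool.Agent.helper8.Disc.E3
import Pool.Agent.helper82.Disc.G
import Pool.Agent.helper61.Disc.C1

set_option autoImplicit false

/-! DISC project, module H: the core theorem from the grid version. -/

namespace Pool.Agent.helper82.Disc
open Finset

/-- rounding one coordinate: the integer threshold `X'` of a real `x`. -/
theorem H_round (B : ℕ) (hB : 1 ≤ B) (x : ℝ) (hx : x ∈ Set.Icc (0 : ℝ) 1) :
    ∃ X : ℕ, X < B ∧ |x - (X : ℝ) / B| ≤ 1 / B ∧
      (∀ a : ℕ, a < X → (a : ℝ) / B < x) ∧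
      (∀ a : ℕ, a < B → (a : ℝ) / B < x → a ≠ B - 1 → a < X) := by
  have hB0 : (0 : ℝ) < B := by exact_mod_cast hB
  refine ⟨min ⌈x * B⌉₊ (B - 1), ?_, ?_, ?_, ?_⟩
  · have : min ⌈x * B⌉₊ (B - 1) ≤ B - 1 := min_le_right _ _
    omega
  · have hx0 : 0 ≤ x * B := mul_nonneg hx.1 hB0.le
    have hx1 : x * B ≤ B := by
      calc x * B ≤ 1 * B := mul_le_mul_of_nonneg_right hx.2 hB0.le
        _ = B := one_mul _
    have h1 : x * B ≤ ⌈x * B⌉₊ := Nat.le_ceil _
    have h2 : (⌈x * B⌉₊ : ℝ) < x * B + 1 := Nat.ceil_lt_add_one hx0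
    have h3 : x - (↑(min ⌈x * B⌉₊ (B - 1)) : ℝ) / B
        = (x * B - (↑(min ⌈x * B⌉₊ (B - 1)) : ℝ)) / B := by
      field_simp
    rw [h3, abs_div, abs_of_pos hB0]
    apply div_le_div_of_nonneg_right _ hB0.le
    rcases le_total ⌈x * B⌉₊ (B - 1) with h | h
    · rw [min_eq_left h, abs_le]
      constructor <;> linarith
    · rw [min_eq_right h, Nat.cast_sub hB, abs_le]
      have h4 : ((B - 1 : ℕ) : ℝ) ≤ ⌈x * B⌉₊ := by exact_mod_cast h
      rw [Nat.cast_sub hB] at h4
      push_cast at h4 ⊢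
      constructor <;> linarith
  · intro a ha
    have h1 : a < ⌈x * B⌉₊ := lt_of_lt_of_le ha (min_le_left _ _)
    rw [Nat.lt_ceil] at h1
    rw [div_lt_iff₀ hB0]
    exact h1
  · intro a haB ha hne
    rw [div_lt_iff₀ hB0] at ha
    apply lt_min
    · rw [Nat.lt_ceil]; exact ha
    · omega

/-- comparison of counts -/
theorem H_card {α : Type} [DecidableEq α] (S T : Finset α) (E : Finset α) (h1 : T ⊆ S)
    (h2 : S ⊆ T ∪ E) : |(S.card : ℝ) - T.card| ≤ E.card := by
  have h3 : T.card ≤ S.card := Finset.card_le_card h1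
  have h4 : S.card ≤ T.card + E.card := (Finset.card_le_card h2).trans (Finset.card_union_le _ _)
  have h3' : (T.card : ℝ) ≤ S.card := by exact_mod_cast h3
  have h4' : (S.card : ℝ) ≤ T.card + E.card := by exact_mod_cast h4
  rw [abs_le]
  constructor <;> linarith

theorem H_main (B : ℝ) (hB : 0 < B) (k k' : ℝ) (x x' y y' : ℝ) (hx : 0 ≤ x ∧ x ≤ 1)
    (hx' : 0 ≤ x' ∧ x' ≤ 1) (hy : 0 ≤ y ∧ y ≤ 1) (hy' : 0 ≤ y' ∧ y' ≤ 1)
    (hk : 0 ≤ k ∧ k ≤ B) (hk' : 0 ≤ k' ∧ k' ≤ B) (h1 : |x - x'| ≤ 1 / B) (h2 : |y - y'| ≤ 1 / B)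
    (h3 : |k - k'| ≤ 1) :
    |k * x * y - k' * x' * y'| ≤ 3 := by
  have e : k * x * y - k' * x' * y'
      = (k - k') * (x * y) + k' * (x - x') * y + k' * x' * (y - y') := by ring
  rw [e]
  have a1 : |(k - k') * (x * y)| ≤ 1 := by
    rw [abs_mul, abs_of_nonneg (mul_nonneg hx.1 hy.1)]
    calc |k - k'| * (x * y) ≤ 1 * 1 := by
          apply mul_le_mul h3 _ (mul_nonneg hx.1 hy.1) (by norm_num)
          exact mul_le_one₀ hx.2 hy.1 hy.2
      _ = 1 := by norm_num
  have a2 : |k' * (x - x') * y| ≤ 1 := by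
    rw [abs_mul, abs_mul, abs_of_nonneg hk'.1, abs_of_nonneg hy.1]
    calc k' * |x - x'| * y ≤ (B * (1 / B)) * 1 := by
          apply mul_le_mul _ hy.2 hy.1 (by positivity)
          exact mul_le_mul hk'.2 h1 (abs_nonneg _) hB.le
      _ = 1 := by field_simp
  have a3 : |k' * x' * (y - y')| ≤ 1 := by
    rw [abs_mul, abs_mul, abs_of_nonneg hk'.1, abs_of_nonneg hx'.1]
    calc k' * x' * |y - y'| ≤ (B * 1) * (1 / B) := by
          apply mul_le_mul _ h2 (abs_nonneg _) (by positivity)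
          exact mul_le_mul hk'.2 hx'.2 hx'.1 hB.le
      _ = 1 := by field_simp
  calc |(k - k') * (x * y) + k' * (x - x') * y + k' * x' * (y - y')|
      ≤ |(k - k') * (x * y)| + |k' * (x - x') * y| + |k' * x' * (y - y')| := abs_add_three _ _ _
    _ ≤ 3 := by linarith

/-- **Core theorem.** -/
theorem core (b : ℕ) (hb : b.Prime) (n : ℕ) (hn : b ^ 5 ≤ n) :
    ∃ z : ℕ → ℝ × ℝ, (∀ i, (z i).1 ∈ Set.Ico (0 : ℝ) 1 ∧ (z i).2 ∈ Set.Ico (0 : ℝ) 1) ∧
      (∀ i < b ^ n, ∀ j < b ^ n, i ≠ j → (z i).1 ≠ (z j).1 ∧ (z i).2 ≠ (z j).2) ∧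
      ∀ k ≤ b ^ n, ∀ x ∈ Set.Icc (0 : ℝ) 1, ∀ y ∈ Set.Icc (0 : ℝ) 1,
        |(((Finset.range k).filter (fun i => (z i).1 < x ∧ (z i).2 < y)).card : ℝ)
          - k * x * y| ≤ 20 * (n : ℝ) ^ 2 := by
  haveI : Fact b.Prime := ⟨hb⟩
  haveI : NeZero b := ⟨hb.ne_zero⟩
  obtain ⟨P, hP⟩ := grid_bound (b := b) n hn
  obtain ⟨B, hBdef⟩ : ∃ B : ℕ, B = b ^ n := ⟨_, rfl⟩
  have hB1 : 1 ≤ B := by rw [hBdef]; exact Nat.one_le_pow _ _ hb.pos
  have hB0 : (0 : ℝ) < B := by exact_mod_cast hB1
  have hn1 : 1 ≤ n := le_trans (Nat.one_le_pow _ _ hb.pos) hn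
  have hlt : ∀ w : Fin n → ZMod b, toNat n w < B := by
    intro w; rw [hBdef]; exact toNat_lt n w
  -- the string with index `i`
  have hex : ∀ i : ℕ, ∃ v : Fin n → ZMod b, i < B → toNat n (Y n P v) = i := by
    intro i
    by_cases hi : i < B
    · obtain ⟨w, hw⟩ := toNat_surj (b := b) n i (by rw [← hBdef]; exact hi)
      obtain ⟨v, hv⟩ := (Y_bij n P).2 w
      exact ⟨v, fun _ => by rw [hv, hw]⟩
    · exact ⟨0, fun h => absurd h hi⟩
  choose V hV using hex
  have hVinj : ∀ i < B, ∀ j < B, V i = V j → i = j := by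
    intro i hi j hj h
    rw [← hV i hi, ← hV j hj, h]
  have hVY : ∀ v : Fin n → ZMod b, V (toNat n (Y n P v)) = v := by
    intro v
    apply (Y_bij n P).1
    apply toNat_inj (b := b) n
    exact hV _ (hlt _)
  let rv : (Fin n → ZMod b) → (Fin n → ZMod b) := fun v j => v j.rev
  have hrv : ∀ v v', rv v = rv v' → v = v' := by
    intro v v' h
    funext j
    have := congrFun h j.rev
    simpa [rv] using this
  refine ⟨fun i => ((toNat n (V i) : ℝ) / B, (toNat n (rv (V i)) : ℝ) / B), ?_, ?_, ?_⟩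
  · intro i
    refine ⟨⟨by positivity, ?_⟩, ⟨by positivity, ?_⟩⟩
    · show (toNat n (V i) : ℝ) / B < 1
      rw [div_lt_one hB0]; exact_mod_cast hlt _
    · show (toNat n (rv (V i)) : ℝ) / B < 1
      rw [div_lt_one hB0]; exact_mod_cast hlt _
  · intro i hi j hj hij
    rw [← hBdef] at hi hj
    constructor
    · intro h
      apply hij
      apply hVinj i hi j hj
      apply toNat_inj (b := b) n
      have h' : (toNat n (V i) : ℝ) / B = (toNat n (V j) : ℝ) / B := h
      rw [div_left_inj' hB0.ne'] at h'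
      exact_mod_cast h'
    · intro h
      apply hij
      apply hVinj i hi j hj
      apply hrv
      apply toNat_inj (b := b) n
      have h' : (toNat n (rv (V i)) : ℝ) / B = (toNat n (rv (V j)) : ℝ) / B := h
      rw [div_left_inj' hB0.ne'] at h'
      exact_mod_cast h'
  · intro k hk x hx y hy
    rw [← hBdef] at hk
    obtain ⟨X, hXB, hX1, hX2, hX3⟩ := H_round B hB1 x hx
    obtain ⟨Z, hZB, hZ1, hZ2, hZ3⟩ := H_round B hB1 y hy
    obtain ⟨k', hk'def⟩ : ∃ k' : ℕ, k' = min k (B - 1) := ⟨_, rfl⟩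
    have hk'B : k' < B := by omega
    have hk'k : k' ≤ k := by omega
    obtain ⟨u, hu⟩ := toNat_surj (b := b) n X (by rw [← hBdef]; exact hXB)
    obtain ⟨s, hs⟩ := toNat_surj (b := b) n Z (by rw [← hBdef]; exact hZB)
    obtain ⟨w, hw⟩ := toNat_surj (b := b) n k' (by rw [← hBdef]; exact hk'B)
    have hg := hP u s w
    rw [om_eq, om_eq, om_eq, hu, hs, hw] at hg
    have hbB : (b : ℝ) ^ n = B := by rw [hBdef]; push_cast; rfl
    rw [hbB] at hg
    -- the sum is a count
    have hcount : ∑ v : Fin n → ZMod b, lt01 n v u * lt01 n (fun j => v j.rev) s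
          * lt01 n (Y n P v) w
        = (((Finset.range k').filter (fun i => toNat n (V i) < X
            ∧ toNat n (rv (V i)) < Z)).card : ℝ) := by
      have h1 : ∀ v : Fin n → ZMod b, lt01 n v u * lt01 n (fun j => v j.rev) s
          * lt01 n (Y n P v) w = if (toNat n v < X ∧ toNat n (rv v) < Z
            ∧ toNat n (Y n P v) < k') then 1 else 0 := by
        intro v
        rw [lt01_eq, lt01_eq, lt01_eq, hu, hs, hw]
        by_cases c1 : toNat n v < X
        · by_cases c2 : toNat n (rv v) < Z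
          · by_cases c3 : toNat n (Y n P v) < k'
            · simp [c1, c3, show toNat n (fun j => v j.rev) < Z from c2]
              simpa [rv] using c2
            · simp [c3]
          · have c2' : ¬ toNat n (fun j => v j.rev) < Z := c2
            simp [c2, c2']
        · simp [c1]
      simp only [h1]
      rw [Finset.sum_boole]
      congr 1
      symm
      apply Finset.card_bij (fun i _ => V i)
      · intro i hi
        rw [mem_filter, mem_range] at hi
        rw [mem_filter]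
        refine ⟨mem_univ _, hi.2.1, hi.2.2, ?_⟩
        rw [hV i (by omega)]; exact hi.1
      · intro i hi j hj h
        rw [mem_filter, mem_range] at hi hj
        exact hVinj i (by omega) j (by omega) h
      · intro v hv
        rw [mem_filter] at hv
        refine ⟨toNat n (Y n P v), ?_, hVY v⟩
        rw [mem_filter, mem_range, hVY]
        exact ⟨hv.2.2.2, hv.2.1, hv.2.2.1⟩
    rw [hcount] at hg
    -- comparison of the counts
    have hcmp : |(((Finset.range k).filter (fun i => (toNat n (V i) : ℝ) / B < x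
          ∧ (toNat n (rv (V i)) : ℝ) / B < y)).card : ℝ)
        - (((Finset.range k').filter (fun i => toNat n (V i) < X
            ∧ toNat n (rv (V i)) < Z)).card : ℝ)| ≤ 3 := by
      obtain ⟨v1, hv1⟩ := toNat_surj (b := b) n (B - 1) (by rw [← hBdef]; omega)
      let E : Finset ℕ := {B - 1, toNat n (Y n P v1), toNat n (Y n P (rv v1))}
      have hE : (E.card : ℝ) ≤ 3 := by
        have : E.card ≤ 3 := Finset.card_le_three
        exact_mod_cast this
      refine le_trans (H_card _ _ E ?_ ?_) hE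
      · intro i hi
        rw [mem_filter, mem_range] at hi ⊢
        exact ⟨by omega, hX2 _ hi.2.1, hZ2 _ hi.2.2⟩
      · intro i hi
        rw [mem_filter, mem_range] at hi
        rw [mem_union, mem_filter, mem_range]
        by_cases e0 : i = B - 1
        · right; simp [E, e0]
        by_cases e1 : toNat n (V i) = B - 1
        · right
          have : V i = v1 := toNat_inj (b := b) n (by rw [e1, hv1])
          simp only [E, mem_insert, mem_singleton]
          right; left
          rw [← this, hV i (by omega)]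
        by_cases e2 : toNat n (rv (V i)) = B - 1
        · right
          have : rv (V i) = v1 := toNat_inj (b := b) n (by rw [e2, hv1])
          have h2 : V i = rv v1 := by
            rw [← this]; funext j; simp [rv]
          simp only [E, mem_insert, mem_singleton]
          right; right
          rw [← h2, hV i (by omega)]
        left
        exact ⟨by omega, hX3 _ (hlt _) hi.2.1 e1, hZ3 _ (hlt _) hi.2.2 e2⟩
    -- comparison of the main terms
    have hX01 : 0 ≤ (X : ℝ) / B ∧ (X : ℝ) / B ≤ 1 := by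
      refine ⟨by positivity, ?_⟩
      rw [div_le_one hB0]; exact_mod_cast hXB.le
    have hZ01 : 0 ≤ (Z : ℝ) / B ∧ (Z : ℝ) / B ≤ 1 := by
      refine ⟨by positivity, ?_⟩
      rw [div_le_one hB0]; exact_mod_cast hZB.le
    have hkk : |(k : ℝ) - k'| ≤ 1 := by
      have h1 : (k' : ℝ) ≤ k := by exact_mod_cast hk'k
      have h2 : (k : ℝ) ≤ k' + 1 := by
        have : k ≤ k' + 1 := by omega
        exact_mod_cast this
      rw [abs_le]; constructor <;> linarith
    have hmain := H_main B hB0 k k' x (X / B) y (Z / B) ⟨hx.1, hx.2⟩ hX01 ⟨hy.1, hy.2⟩ hZ01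
      ⟨by positivity, by exact_mod_cast hk⟩ ⟨by positivity, by exact_mod_cast hk'B.le⟩ hX1 hZ1 hkk
    have hm2 : (B : ℝ) * (X / B) * (Z / B) * (k' / B) = k' * (X / B) * (Z / B) := by
      field_simp
    rw [hm2] at hg
    have hn2 : (1 : ℝ) ≤ (n : ℝ) ^ 2 := by
      have : (1 : ℝ) ≤ n := by exact_mod_cast hn1
      exact one_le_pow₀ this
    rw [abs_le] at hg hcmp hmain ⊢
    constructor <;> linarith [hg.1, hg.2, hcmp.1, hcmp.2, hmain.1, hmain.2]

end Pool.Agent.helper82.Disc
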